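import Pool.Agent.MP_2c15fb_gt.NonNull
import Pool.Agent.MP_2c15fb_gt.CWX
import Pool.Agent.MP_2c15fb_gt.Statement

/-!
# The equivariant generating hypothesis fails for the group with two elements

Let `G` be the group with two elements and let `σ` be its real sign representation. The space
`X⁺ = S^σ ∧ RP²` is the one-point compactification of `σ × (open Möbius band)` and
`Y⁺ = S^σ ∧ S²` is the one-point compactification of `σ × ℝ²`; both are finite pointed `G`-CW
complexes. There is a stable `G`-map `f : X⁺ → Y⁺` which is not zero but which induces zero on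
`π_m^H` for all integers `m` and all subgroups `H` of `G`.
-/

namespace Pool.Agent.Results.MP_2c15fb_gt.EGHFailsForC2

open Pool.Agent.MP2c15fb GSpace

/-- A nonzero stable `G`-map between finite `G`-CW complexes (`G` of order two) that induces zero
on all homotopy groups `π_m^H`. -/
theorem result :
    GSpace.X.FiniteCW ∧ GSpace.Y.FiniteCW ∧
    ∃ f : GMap ((rep 1).prod GSpace.X) ((rep 1).prod GSpace.Y), ¬ f.StablyNull ∧
      ∀ (H : Subgroup ℤˣ) (i j n : ℕ)
        (u : GMap ((rep n).prod ((triv i).prod (orbit H)))
          ((rep n).prod ((triv j).prod GSpace.X))),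
        (f.after u).StablyNull :=
  ⟨isFiniteCW_X, isFiniteCW_Y, f, not_stablyNull_f, vanish⟩

end Pool.Agent.Results.MP_2c15fb_gt.EGHFailsForC2
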